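import Pool.Agent.H13.DiscC

set_option autoImplicit false

namespace Pool.Agent.Results.MP_e6b4fa_co.Order

open Pool.Agent.H13.Disc

theorem result :
    ∀ (v : ℕ) (H : SimpleGraph (Fin v)),
      (H ≠ ⊥ → ∃ c C : ℝ, 0 < c ∧ 0 < C ∧ ∃ n₀ : ℕ, ∀ n : ℕ, n₀ ≤ n →
        c * (n : ℝ) ^ ((v : ℝ) - 1 / 2) ≤ (fH H n : ℝ) ∧
          (fH H n : ℝ) ≤ C * (n : ℝ) ^ ((v : ℝ) - 1 / 2)) ∧
      (H = ⊥ → ∀ n : ℕ, fH H n = 0) :=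
  fun _ H => ⟨main H, fun h n => h ▸ edgeless n⟩

end Pool.Agent.Results.MP_e6b4fa_co.Order
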